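import Mathlib

/-!
# The ring of the entire functions is integrally closed in the field of meromorphic functions
-/

set_option autoImplicit false

namespace Pool.Agent.H436.SC

open Filter Topology

theorem root_bd {m : ℕ} (b : ℂ) (c : Fin m → ℂ)
    (h : b ^ m + ∑ i : Fin m, c i * b ^ (i : ℕ) = 0) : ‖b‖ ≤ 1 + ∑ i, ‖c i‖ := by
  have hS : 0 ≤ ∑ i, ‖c i‖ := Finset.sum_nonneg fun i _ => norm_nonneg _
  rcases le_or_gt ‖b‖ 1 with hb | hb
  · linarith
  · have hb0 : 0 < ‖b‖ := by linarith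
    rcases Nat.eq_zero_or_pos m with hm | hm
    · subst hm
      simp at h
    · have h1 : b ^ m = -∑ i : Fin m, c i * b ^ (i : ℕ) := eq_neg_of_add_eq_zero_left h
      have h2 : ‖b‖ ^ m ≤ (∑ i, ‖c i‖) * ‖b‖ ^ (m - 1) := by
        rw [← norm_pow, h1, norm_neg, Finset.sum_mul]
        refine (norm_sum_le _ _).trans (Finset.sum_le_sum fun i _ => ?_)
        rw [norm_mul, norm_pow]
        refine mul_le_mul_of_nonneg_left ?_ (norm_nonneg _)
        exact pow_le_pow_right₀ hb.le (by omega)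
      have h3 : ‖b‖ ^ m = ‖b‖ * ‖b‖ ^ (m - 1) := by
        rw [← pow_succ']
        congr 1
        omega
      rw [h3] at h2
      have h4 := le_of_mul_le_mul_right h2 (pow_pos hb0 _)
      linarith

theorem quot_eq {m : ℕ} (c : Fin m → ℂ) (p q : ℂ) (hq : q ≠ 0)
    (h : p ^ m + ∑ i : Fin m, c i * p ^ (i : ℕ) * q ^ (m - (i : ℕ)) = 0) :
    (p / q) ^ m + ∑ i : Fin m, c i * (p / q) ^ (i : ℕ) = 0 := by
  have hqm : q ^ m ≠ 0 := pow_ne_zero m hq
  apply mul_right_cancel₀ hqm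
  rw [zero_mul, ← h, add_mul, Finset.sum_mul]
  congr 1
  · rw [div_pow, div_mul_cancel₀ _ hqm]
  · refine Finset.sum_congr rfl fun i _ => ?_
    have h1 : q ^ m = q ^ (i : ℕ) * q ^ (m - (i : ℕ)) := by
      rw [← pow_add]
      congr 1
      have := i.2
      omega
    rw [div_pow, h1, mul_assoc (c i), ← mul_assoc (p ^ (i : ℕ) / q ^ (i : ℕ)),
      div_mul_cancel₀ _ (pow_ne_zero _ hq), mul_assoc]

theorem ne_near {q : ℂ → ℂ} (hq : Differentiable ℂ q) (hq0 : ∃ z, q z ≠ 0) (z₀ : ℂ) :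
    ∀ᶠ z in 𝓝[≠] z₀, q z ≠ 0 := by
  have ha : AnalyticOnNhd ℂ q Set.univ := fun z _ => hq.analyticAt z
  by_contra hcon
  rw [not_eventually] at hcon
  have h1 : ∃ᶠ z in 𝓝[≠] z₀, q z = 0 := hcon.mono fun z hz => not_not.1 hz
  obtain ⟨z, hz⟩ := hq0
  exact hz (ha.eqOn_zero_of_preconnected_of_frequently_eq_zero isPreconnected_univ
    (Set.mem_univ z₀) h1 (Set.mem_univ z))

/-- A. The ring of the entire functions is integrally closed in the field of meromorphic functions. -/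
theorem entire_of_integral {p q : ℂ → ℂ} (hp : Differentiable ℂ p) (hq : Differentiable ℂ q)
    (hq0 : ∃ z, q z ≠ 0) {m : ℕ} (c : Fin m → ℂ → ℂ) (hc : ∀ i, Differentiable ℂ (c i))
    (h : ∀ z, p z ^ m + ∑ i : Fin m, c i z * p z ^ (i : ℕ) * q z ^ (m - (i : ℕ)) = 0) :
    ∃ b : ℂ → ℂ, Differentiable ℂ b ∧ (∀ z, p z = b z * q z) ∧
      ∀ z, b z ^ m + ∑ i : Fin m, c i z * b z ^ (i : ℕ) = 0 := by
  obtain ⟨g, hg⟩ : ∃ g : ℂ → ℂ, g = fun z => p z / q z := ⟨_, rfl⟩
  obtain ⟨b, hb⟩ : ∃ b : ℂ → ℂ, b = fun z => limUnder (𝓝[≠] z) g := ⟨_, rfl⟩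
  have gd : ∀ z, q z ≠ 0 → DifferentiableAt ℂ g z := by
    intro z hz
    rw [hg]
    exact (hp z).div (hq z) hz
  have bg : ∀ z, q z ≠ 0 → b z = g z := by
    intro z hz
    rw [hb]
    exact ((gd z hz).continuousAt.tendsto.mono_left nhdsWithin_le_nhds).limUnder_eq
  have ge : ∀ z, q z ≠ 0 → g z ^ m + ∑ i : Fin m, c i z * g z ^ (i : ℕ) = 0 := by
    intro z hz
    rw [hg]
    exact quot_eq (fun i => c i z) (p z) (q z) hz (h z)
  have key : ∀ z₀ : ℂ, DifferentiableAt ℂ b z₀ := by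
    intro z₀
    have h1 := ne_near hq hq0 z₀
    rw [eventually_nhdsWithin_iff] at h1
    obtain ⟨r, hr, hr1⟩ := Metric.eventually_nhds_iff_ball.1 h1
    have hcb : Continuous fun z => 1 + ∑ i, ‖c i z‖ :=
      continuous_const.add (continuous_finsetSum _ fun i _ => (hc i).continuous.norm)
    obtain ⟨C, hC⟩ := (isCompact_closedBall z₀ r).bddAbove_image hcb.continuousOn
    have hd : DifferentiableOn ℂ g (Metric.ball z₀ r \ {z₀}) := fun z hz =>
      (gd z (hr1 z hz.1 hz.2)).differentiableWithinAt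
    have hbd : BddAbove (norm ∘ g '' (Metric.ball z₀ r \ {z₀})) := by
      refine ⟨C, ?_⟩
      rintro _ ⟨z, hz, rfl⟩
      refine (root_bd (g z) (fun i => c i z) (ge z (hr1 z hz.1 hz.2))).trans ?_
      exact hC (Set.mem_image_of_mem _ (Metric.ball_subset_closedBall hz.1))
    have h2 := Complex.differentiableOn_update_limUnder_of_bddAbove (Metric.ball_mem_nhds z₀ hr)
      hd hbd
    have h3 : Set.EqOn b (Function.update g z₀ (limUnder (𝓝[≠] z₀) g)) (Metric.ball z₀ r) := by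
      intro z hz
      by_cases hzz : z = z₀
      · rw [hzz, Function.update_self, hb]
      · rw [Function.update_of_ne hzz]
        exact bg z (hr1 z hz hzz)
    exact (h2.congr h3).differentiableAt (Metric.ball_mem_nhds z₀ hr)
  have hbc : Continuous b := continuous_iff_continuousAt.2 fun z => (key z).continuousAt
  refine ⟨b, key, fun z₀ => ?_, fun z₀ => ?_⟩
  · refine tendsto_nhds_unique_of_eventuallyEq (l := 𝓝[≠] z₀)
      ((hp.continuous.tendsto z₀).mono_left nhdsWithin_le_nhds)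
      (((hbc.mul hq.continuous).tendsto z₀).mono_left nhdsWithin_le_nhds) ?_
    filter_upwards [ne_near hq hq0 z₀] with z hz
    show p z = b z * q z
    rw [bg z hz, hg]
    exact (div_mul_cancel₀ _ hz).symm
  · have hcont : Continuous fun z => b z ^ m + ∑ i : Fin m, c i z * b z ^ (i : ℕ) :=
      (hbc.pow m).add (continuous_finsetSum _ fun i _ => (hc i).continuous.mul (hbc.pow _))
    refine tendsto_nhds_unique_of_eventuallyEq (l := 𝓝[≠] z₀)
      ((hcont.tendsto z₀).mono_left nhdsWithin_le_nhds) tendsto_const_nhds ?_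
    filter_upwards [ne_near hq hq0 z₀] with z hz
    show b z ^ m + ∑ i : Fin m, c i z * b z ^ (i : ℕ) = 0
    rw [bg z hz]
    exact ge z hz

end Pool.Agent.H436.SC
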