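import Pool.Agent.H436.SC.Ent
import Pool.Agent.H436.SC.Int
import Pool.Agent.H436.DT.L1
import Pool.Graph.R_seed8.Y377.EL.Fn

/-!
Algebraic elements and new constants.
-/

set_option autoImplicit false

namespace Pool.Agent.H436.SC2

open Pool.Agent.H436.SC

/-- the value at `z` -/
def vz (z : ℂ) : Ent →ₐ[ℂ] ℂ := (Pi.evalAlgHom ℂ (fun _ : ℂ => ℂ) z).comp Ent.val

theorem e_ext {g h : Ent} (H : ∀ z, g.1 z = h.1 z) : g = h := Subtype.ext (funext H)

theorem e_dom {f g : Ent} (h : f * g = 0) : f = 0 ∨ g = 0 := by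
  by_contra hcon
  push Not at hcon
  obtain ⟨hf, hg⟩ := hcon
  have h1 : ∃ z, f.1 z ≠ 0 := by
    by_contra hc
    push Not at hc
    exact hf (e_ext hc)
  have h2 : ∃ z, g.1 z ≠ 0 := by
    by_contra hc
    push Not at hc
    exact hg (e_ext hc)
  obtain ⟨z, hz1, hz2⟩ := ((ne_near f.2 h1 0).and (ne_near g.2 h2 0)).exists
  have h3 : f.1 z * g.1 z = 0 := congrArg (vz z) h
  exact (mul_ne_zero hz1 hz2) h3

theorem nontriv : Nontrivial Ent := ⟨⟨0, 1, fun h => by
  have h1 : (0 : ℂ) = 1 := congrArg (vz 0) h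
  exact zero_ne_one h1⟩⟩

theorem nzd : NoZeroDivisors Ent := ⟨fun h => e_dom h⟩

theorem domE : IsDomain Ent :=
  haveI := nontriv
  haveI := nzd
  NoZeroDivisors.to_isDomain _

/-- The derivation of the ring of the entire functions. -/
noncomputable def dd : Derivation ℂ Ent Ent := Derivation.mk'
  { toFun := dif
    map_add' := fun f g => e_ext fun z => by
      change deriv (f.1 + g.1) z = deriv f.1 z + deriv g.1 z
      exact deriv_add (f.2 z) (g.2 z)
    map_smul' := fun c f => e_ext fun z => by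
      change deriv (c • f.1) z = c • deriv f.1 z
      exact deriv_const_smul c (f.2 z) } fun f g => e_ext fun z => by
      change deriv (f.1 * g.1) z = f.1 z * deriv g.1 z + g.1 z * deriv f.1 z
      rw [deriv_mul (f.2 z) (g.2 z)]
      ring

/-- Two entire functions with vanishing Wronskian. -/
theorem wronski {a b : Ent} (hb : b ≠ 0) (h : dif a * b = a * dif b) :
    ∃ c : ℂ, a = algebraMap ℂ Ent c * b := by
  obtain ⟨z0, hz0⟩ : ∃ z, b.1 z ≠ 0 := by
    by_contra hc
    push Not at hc
    exact hb (e_ext hc)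
  let c : ℂ := a.1 z0 / b.1 z0
  refine ⟨c, ?_⟩
  by_contra hne
  have hw : ∃ z, (a - algebraMap ℂ Ent c * b).1 z ≠ 0 := by
    by_contra hc
    push Not at hc
    exact hne (sub_eq_zero.1 (e_ext hc))
  obtain ⟨r, hr, hball⟩ := Metric.eventually_nhds_iff_ball.1
    (b.2.continuous.continuousAt.eventually_ne hz0)
  have h1 : ∀ z ∈ Metric.ball z0 r, a.1 z / b.1 z = c := by
    intro z hz
    have h2 : Set.EqOn (deriv fun z => a.1 z / b.1 z) 0 (Metric.ball z0 r) := by
      intro w hw
      have h3 : deriv (fun z => a.1 z / b.1 z) w =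
          (deriv a.1 w * b.1 w - a.1 w * deriv b.1 w) / b.1 w ^ 2 :=
        deriv_fun_div (a.2 w) (b.2 w) (hball w hw)
      have h4 : deriv a.1 w * b.1 w = a.1 w * deriv b.1 w := congrArg (vz w) h
      rw [h3, h4, sub_self, zero_div]
      rfl
    exact Metric.isOpen_ball.is_const_of_deriv_eq_zero (convex_ball z0 r).isPreconnected
      (fun w hw => ((a.2 w).div (b.2 w) (hball w hw)).differentiableWithinAt) h2 hz
      (Metric.mem_ball_self hr)
  have h5 := ne_near (a - algebraMap ℂ Ent c * b).2 hw z0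
  have h6 : ∀ᶠ z in nhdsWithin z0 {z0}ᶜ, z ∈ Metric.ball z0 r :=
    nhdsWithin_le_nhds (Metric.ball_mem_nhds z0 hr)
  obtain ⟨z, hz1, hz2⟩ := (h5.and h6).exists
  apply hz1
  have h7 := h1 z hz2
  rw [div_eq_iff (hball z hz2)] at h7
  change a.1 z - c * b.1 z = 0
  rw [h7, sub_self]

/-- The constants of a derivation. -/
def cst {E : Type} [Field E] [Algebra ℂ E] (D : Derivation ℂ E E) : Subalgebra ℂ E where
  carrier := {x | D x = 0}
  mul_mem' := fun {a b} ha hb => by
    have ha' : D a = 0 := ha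
    have hb' : D b = 0 := hb
    change D (a * b) = 0
    rw [D.leibniz, ha', hb', smul_zero, smul_zero, add_zero]
  add_mem' := fun {a b} ha hb => by
    have ha' : D a = 0 := ha
    have hb' : D b = 0 := hb
    change D (a + b) = 0
    rw [map_add, ha', hb', add_zero]
  algebraMap_mem' := fun c => D.map_algebraMap c

/-- The ring generated by the constants and `A` is the span of a basis of `A`. -/
theorem mem_span_basis {E : Type} [Field E] [Algebra ℂ E] (D : Derivation ℂ E E)
    (ι : Ent →ₐ[ℂ] E) (A : Subalgebra ℂ Ent) {J : Type} (b : Module.Basis J ℂ A) {y : E}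
    (hy : y ∈ Algebra.adjoin ℂ ({x : E | D x = 0} ∪ ι '' (A : Set Ent))) :
    y ∈ Submodule.span (cst D) (Set.range fun j => ι (b j)) := by
  have h1 : ∀ a ∈ A, ι a ∈ Submodule.span (cst D) (Set.range fun j => ι (b j)) := by
    intro a ha
    have h2 := b.linearCombination_repr ⟨a, ha⟩
    have h3 : ι a = ∑ j ∈ (b.repr ⟨a, ha⟩).support,
        algebraMap ℂ E (b.repr ⟨a, ha⟩ j) * ι (b j) := by
      have h4 := congrArg (fun x : A => ι x) h2
      rw [Finsupp.linearCombination_apply, Finsupp.sum] at h4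
      have h5 : ι a = ι ((∑ j ∈ (b.repr ⟨a, ha⟩).support, (b.repr ⟨a, ha⟩) j • b j : A) : Ent) :=
        h4.symm
      rw [h5, AddSubmonoidClass.coe_finsetSum, map_sum]
      refine Finset.sum_congr rfl fun j _ => ?_
      rw [Subalgebra.coe_smul, map_smul, Algebra.smul_def]
    rw [h3]
    refine Submodule.sum_mem _ fun j _ => ?_
    have h4 : algebraMap ℂ E (b.repr ⟨a, ha⟩ j) * ι (b j) =
        (⟨algebraMap ℂ E (b.repr ⟨a, ha⟩ j), D.map_algebraMap _⟩ : cst D) • ι (b j) := rfl
    rw [h4]
    exact Submodule.smul_mem _ _ (Submodule.subset_span ⟨j, rfl⟩)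
  have h2 : y ∈ Algebra.adjoin (cst D) (ι '' (A : Set Ent)) := by
    have h3 : Algebra.adjoin ℂ ({x : E | D x = 0} ∪ ι '' (A : Set Ent)) ≤
        (Algebra.adjoin (cst D) (ι '' (A : Set Ent))).restrictScalars ℂ := by
      refine Algebra.adjoin_le ?_
      rintro x (hx | hx)
      · exact Subalgebra.algebraMap_mem (Algebra.adjoin (cst D) (ι '' (A : Set Ent)))
          (⟨x, hx⟩ : cst D)
      · exact Algebra.subset_adjoin hx
    exact h3 hy
  have h3 : y ∈ Subalgebra.toSubmodule (Algebra.adjoin (cst D) (ι '' (A : Set Ent))) := h2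
  rw [Algebra.adjoin_eq_span] at h3
  refine Submodule.span_le.2 ?_ h3
  intro x hx
  have h4 : Submonoid.closure (ι '' (A : Set Ent)) ≤ (A.map ι).toSubmonoid :=
    Submonoid.closure_le.2 fun x hx => hx
  obtain ⟨a, ha, rfl⟩ := h4 hx
  exact h1 a ha

open IntermediateField.algebraAdjoinAdjoin in
theorem alg_adj {E : Type} [Field E] [Algebra ℂ E] {T : Set E} {x : E}
    (h : IsAlgebraic (IntermediateField.adjoin ℂ T) x) : IsAlgebraic (Algebra.adjoin ℂ T) x :=
  (IsFractionRing.isAlgebraic_iff (Algebra.adjoin ℂ T) (IntermediateField.adjoin ℂ T) E).2 h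

/-- The constants of a derivation of a field `E` are linearly disjoint from the meromorphic functions
over `ℂ`. -/
theorem alg_descent {E : Type} [Field E] [Algebra ℂ E] (D : Derivation ℂ E E) (ι : Ent →ₐ[ℂ] E)
    (inj : Function.Injective ι) (der : ∀ g, D (ι g) = ι (dif g)) (A : Subalgebra ℂ Ent)
    {p q : Ent}
    (h : IsAlgebraic (IntermediateField.adjoin ℂ ({x : E | D x = 0} ∪ ι '' (A : Set Ent)))
      (ι p / ι q)) :
    IsAlgebraic (IntermediateField.adjoin ℂ (ι '' (A : Set Ent))) (ι p / ι q) := by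
  classical
  have hdom : IsDomain Ent := domE
  obtain ⟨D0, hD0⟩ := Pool.Agent.Y377.EL.exists_derFrac dd
  let T : FractionRing Ent →+* E := IsFractionRing.lift (g := ι.toRingHom) inj
  have hT : ∀ a : Ent, T (algebraMap Ent (FractionRing Ent) a) = ι a := fun a =>
    IsFractionRing.lift_algebraMap _ a
  have hTC : ∀ c : ℂ, T (algebraMap ℂ (FractionRing Ent) c) = algebraMap ℂ E c := by
    intro c
    rw [IsScalarTower.algebraMap_apply ℂ Ent (FractionRing Ent), hT, AlgHom.commutes]
  have hfr : ∀ y : FractionRing Ent, ∃ a b : Ent, b ≠ 0 ∧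
      y * algebraMap Ent (FractionRing Ent) b = algebraMap Ent (FractionRing Ent) a := by
    intro y
    obtain ⟨a, b, hb, rfl⟩ := IsFractionRing.div_surjective (A := Ent) y
    have hb0 : b ≠ 0 := nonZeroDivisors.ne_zero hb
    refine ⟨a, b, hb0, div_mul_cancel₀ _ ?_⟩
    exact (map_ne_zero_iff _ (IsFractionRing.injective Ent (FractionRing Ent))).2 hb0
  have hTD : ∀ y, T (D0 y) = D (T y) := by
    intro y
    obtain ⟨a, b, hb, hy⟩ := hfr y
    have h1 := congrArg D0 hy
    rw [D0.leibniz, hD0, hD0, smul_eq_mul, smul_eq_mul] at h1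
    have h2 := congrArg T h1
    rw [map_add, map_mul, map_mul, hT, hT, hT] at h2
    have h3 := congrArg D (congrArg T hy)
    rw [map_mul, hT, hT, D.leibniz, der, der, smul_eq_mul, smul_eq_mul] at h3
    have hb' : ι b ≠ 0 := fun h0 => hb (inj (h0.trans (map_zero ι).symm))
    apply mul_left_cancel₀ hb'
    exact add_left_cancel (h2.trans h3.symm)
  have hconst : ∀ y, D0 y = 0 → ∃ c : ℂ, y = algebraMap ℂ (FractionRing Ent) c := by
    intro y hy0
    obtain ⟨a, b, hb, hy⟩ := hfr y
    have hinj := IsFractionRing.injective Ent (FractionRing Ent)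
    have h1 := congrArg D0 hy
    rw [D0.leibniz, hD0, hD0, smul_eq_mul, smul_eq_mul, hy0, mul_zero, add_zero] at h1
    have h2 : dif a * b = a * dif b := by
      apply hinj
      rw [map_mul, map_mul, ← hy]
      change algebraMap Ent (FractionRing Ent) (dd a) * _ = _
      rw [← h1]
      change _ = y * algebraMap Ent (FractionRing Ent) b * algebraMap Ent (FractionRing Ent) (dd b)
      ring
    obtain ⟨c, hc⟩ := wronski hb h2
    refine ⟨c, ?_⟩
    have hb' : algebraMap Ent (FractionRing Ent) b ≠ 0 := (map_ne_zero_iff _ hinj).2 hb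
    apply mul_right_cancel₀ hb'
    rw [hy, hc, map_mul, ← IsScalarTower.algebraMap_apply]
  -- the polynomial
  obtain ⟨P, hP0, hP⟩ := alg_adj h
  let b := Module.Basis.ofVectorSpace ℂ A
  have hco : ∀ i, ∃ c : (Module.Basis.ofVectorSpaceIndex ℂ A) →₀ cst D,
      (c.sum fun j a => a • ι (b j)) = (P.coeff i : E) := by
    intro i
    have h1 := mem_span_basis D ι A b (P.coeff i).2
    exact Finsupp.mem_span_range_iff_exists_finsupp.1 h1
  choose c hc using hco
  set m := P.natDegree with hm
  let U : Finset (Module.Basis.ofVectorSpaceIndex ℂ A) :=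
    (Finset.range (m + 1)).biUnion fun i => (c i).support
  have hU : ∀ i ∈ Finset.range (m + 1), (P.coeff i : E) =
      ∑ j ∈ U, (c i j : E) * ι (b j) := by
    intro i hi
    rw [← hc i, Finsupp.sum]
    exact Finset.sum_subset (Finset.subset_biUnion_of_mem (fun i => (c i).support) hi)
      fun j _ hj => by
        rw [Finsupp.notMem_support_iff.1 hj, zero_smul]
  let x0 : FractionRing Ent := algebraMap Ent (FractionRing Ent) p /
    algebraMap Ent (FractionRing Ent) q
  have hx0 : T x0 = ι p / ι q := by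
    change T (_ / _) = _
    rw [map_div₀, hT, hT]
  have hsum : ∑ k : Fin (m + 1) × U, (c k.1 k.2 : E) *
      T (algebraMap Ent (FractionRing Ent) (b k.2) * x0 ^ (k.1 : ℕ)) = 0 := by
    rw [Fintype.sum_prod_type]
    have h1 : ∑ i ∈ Finset.range (m + 1), (P.coeff i : E) * (ι p / ι q) ^ i = 0 := by
      rw [Polynomial.aeval_eq_sum_range] at hP
      exact hP
    rw [← Fin.sum_univ_eq_sum_range (fun i => (P.coeff i : E) * (ι p / ι q) ^ i) (m + 1)] at h1
    rw [← h1]
    refine Finset.sum_congr rfl fun i _ => ?_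
    rw [hU i (Finset.mem_range.2 i.2), Finset.sum_mul, ← Finset.sum_coe_sort U]
    refine Finset.sum_congr rfl fun j _ => ?_
    rw [map_mul, map_pow, hT, hx0]
    ring
  have hne : (fun k : Fin (m + 1) × U => (c k.1 k.2 : E)) ≠ 0 := by
    intro h0
    apply hP0
    rw [← Polynomial.leadingCoeff_eq_zero]
    apply Subtype.ext
    change (P.coeff m : E) = 0
    rw [hU m (Finset.self_mem_range_succ m)]
    refine Finset.sum_eq_zero fun j hj => ?_
    have h1 := congrFun h0 (⟨m, Nat.lt_succ_self m⟩, ⟨j, hj⟩)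
    have h2 : (c m j : E) = 0 := h1
    rw [h2, zero_mul]
  obtain ⟨v, hv0, hv1, hv2⟩ := Pool.Agent.H436.DT.lin_disj (Λ := Unit) (fun _ => D0) (fun _ => D)
    (fun _ x y => map_add D0 x y)
    (fun _ x y => by rw [D0.leibniz, smul_eq_mul, smul_eq_mul])
    (fun _ x y => map_add D x y)
    (fun _ x y => by rw [D.leibniz, smul_eq_mul, smul_eq_mul]) T (fun _ x => hTD x)
    (fun k : Fin (m + 1) × U => algebraMap Ent (FractionRing Ent) (b k.2) * x0 ^ (k.1 : ℕ))
    (fun k => (c k.1 k.2 : E)) (fun _ k => (c k.1 k.2).2) hne hsum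
  choose r hr using fun k => hconst (v k) (hv1 () k)
  have hli : ∀ g : U → ℂ, ∑ j : U, g j • b j = 0 → ∀ j, g j = 0 :=
    Fintype.linearIndependent_iff.1 (b.linearIndependent.comp _ Subtype.val_injective)
  clear_value b
  -- the new polynomial
  let a : Fin (m + 1) → A := fun i => ∑ j : U, r (i, j) • b j
  have hsum2 : ∑ i : Fin (m + 1), ι (a i) * (ι p / ι q) ^ (i : ℕ) = 0 := by
    have h1 := congrArg T hv2
    rw [map_zero, map_sum, Fintype.sum_prod_type] at h1
    rw [← h1]
    refine Finset.sum_congr rfl fun i _ => ?_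
    have h2 : ((a i : A) : Ent) = ∑ j : U, r (i, j) • ((b j : A) : Ent) := by
      change ((∑ j : U, r (i, j) • b j : A) : Ent) = _
      rw [AddSubmonoidClass.coe_finsetSum]
      rfl
    rw [h2, map_sum, Finset.sum_mul]
    refine Finset.sum_congr rfl fun j _ => ?_
    rw [hr, map_mul, map_mul, map_pow, hTC, hT, hx0, map_smul, Algebra.smul_def]
    ring
  have ha : ∃ i, a i ≠ 0 := by
    by_contra hcon
    push Not at hcon
    apply hv0
    funext k
    have h1 := hcon k.1
    have h2 : ∑ j : U, r (k.1, j) • b j = 0 := h1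
    have h5 : r (k.1, k.2) = 0 := hli (fun j => r (k.1, j)) h2 k.2
    have h6 : r k = 0 := h5
    rw [hr k, h6, map_zero]
    rfl
  let L := IntermediateField.adjoin ℂ (ι '' (A : Set Ent))
  have hmem : ∀ i, ι (a i) ∈ L := fun i =>
    IntermediateField.subset_adjoin ℂ _ ⟨a i, (a i).2, rfl⟩
  refine ⟨∑ i : Fin (m + 1), Polynomial.monomial (i : ℕ) (⟨ι (a i), hmem i⟩ : L), ?_, ?_⟩
  · intro h0
    obtain ⟨i, hi⟩ := ha
    apply hi
    have h1 := congrArg (fun Q => Polynomial.coeff Q (i : ℕ)) h0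
    simp only [Polynomial.finsetSum_coeff, Polynomial.coeff_monomial, Polynomial.coeff_zero] at h1
    rw [Finset.sum_eq_single i (fun j _ hj => by
      rw [if_neg]
      intro h2
      exact hj (Fin.ext h2)) (fun h2 => absurd (Finset.mem_univ i) h2), if_pos rfl] at h1
    have h2 : ι (a i) = 0 := congrArg (fun y : L => (y : E)) h1
    exact Subtype.ext (inj (h2.trans (map_zero ι).symm))
  · rw [map_sum, ← hsum2]
    refine Finset.sum_congr rfl fun i _ => ?_
    rw [Polynomial.aeval_monomial]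
    rfl

end Pool.Agent.H436.SC2
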