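import Mathlib

/-!
The ring of the entire functions.
-/

set_option autoImplicit false

namespace Pool.Agent.H436.SC

/-- The ring of the entire functions. -/
def Ent : Subalgebra ℂ (ℂ → ℂ) where
  carrier := {g | Differentiable ℂ g}
  mul_mem' := fun ha hb => Differentiable.mul ha hb
  add_mem' := fun ha hb => Differentiable.add ha hb
  algebraMap_mem' := fun c => differentiable_const c

/-- The derivative of an entire function. -/
noncomputable def dif (g : Ent) : Ent :=
  ⟨deriv g.1, (Differentiable.contDiff (n := 2) g.2).differentiable_deriv_two⟩

end Pool.Agent.H436.SC
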