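import Mathlib

/-!
Slow entire curves: small functions (SC-C). Mathlib only.
-/

set_option autoImplicit false

namespace Pool.Agent.H436.SC

open Filter Topology

/-- B. Bound for roots. -/
theorem root_bound {m : ℕ} (b : ℂ) (c : Fin m → ℂ)
    (h : b ^ m + ∑ i : Fin m, c i * b ^ (i : ℕ) = 0) : ‖b‖ ≤ 1 + ∑ i, ‖c i‖ := by
  have hS : 0 ≤ ∑ i, ‖c i‖ := Finset.sum_nonneg fun i _ => norm_nonneg _
  rcases le_or_gt ‖b‖ 1 with h1 | h1
  · linarith
  cases m with
  | zero => simp at h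
  | succ m =>
    have h2 : b ^ (m + 1) = -∑ i : Fin (m + 1), c i * b ^ (i : ℕ) := eq_neg_of_add_eq_zero_left h
    have h3 : ‖b‖ ^ (m + 1) ≤ (∑ i, ‖c i‖) * ‖b‖ ^ m := by
      rw [← norm_pow, h2, norm_neg, Finset.sum_mul]
      refine (norm_sum_le _ _).trans (Finset.sum_le_sum fun i _ => ?_)
      rw [norm_mul, norm_pow]
      exact mul_le_mul_of_nonneg_left (pow_le_pow_right₀ h1.le (Nat.lt_succ_iff.1 i.2))
        (norm_nonneg _)
    have h4 : 0 < ‖b‖ ^ m := by positivity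
    rw [pow_succ, mul_comm] at h3
    have h5 := le_of_mul_le_mul_right h3 h4
    linarith

/-- `log |g| = o(φ)` on the discs of radius `r + c`. -/
def SmallF (φ : ℝ → ℝ) (g : ℂ → ℂ) : Prop :=
  ∀ c ε : ℝ, 0 < ε → ∀ᶠ r in atTop, ∀ z : ℂ, ‖z‖ ≤ r + c → ‖g z‖ ≤ Real.exp (ε * φ r)

theorem ge_log {φ : ℝ → ℝ} (hφ : Tendsto (fun r => φ r / Real.log r) atTop atTop) (M : ℝ) :
    ∀ᶠ r in atTop, M * Real.log r ≤ φ r := by
  filter_upwards [hφ.eventually_ge_atTop M, eventually_gt_atTop 1] with r h1 h2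
  have h3 := Real.log_pos h2
  rwa [le_div_iff₀ h3] at h1

theorem phi_top {φ : ℝ → ℝ} (hφ : Tendsto (fun r => φ r / Real.log r) atTop atTop) :
    Tendsto φ atTop atTop := by
  refine tendsto_atTop_mono' atTop ?_ Real.tendsto_log_atTop
  filter_upwards [ge_log hφ 1] with r h
  rwa [one_mul] at h

theorem exp_top {φ : ℝ → ℝ} (hφ : Tendsto (fun r => φ r / Real.log r) atTop atTop) {ε : ℝ}
    (hε : 0 < ε) : Tendsto (fun r => Real.exp (ε * φ r)) atTop atTop :=
  Real.tendsto_exp_atTop.comp ((phi_top hφ).const_mul_atTop hε)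

variable {φ : ℝ → ℝ} (hφ : Tendsto (fun r => φ r / Real.log r) atTop atTop)

include hφ in
theorem small_const (a : ℂ) : SmallF φ fun _ => a := by
  intro c ε hε
  filter_upwards [(exp_top hφ hε).eventually_ge_atTop ‖a‖] with r h z _
  exact h

include hφ in
theorem small_id : SmallF φ fun z => z := by
  intro c ε hε
  filter_upwards [ge_log hφ (2 / ε), eventually_ge_atTop (|c| + 2)] with r h1 h2 z hz
  have hc := abs_nonneg c
  have hr : 0 < r := by linarith
  have h3 : 2 * Real.log r ≤ ε * φ r := by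
    have := mul_le_mul_of_nonneg_left h1 hε.le
    have e : ε * (2 / ε * Real.log r) = 2 * Real.log r := by
      field_simp
    rwa [e] at this
  have h4 : r ^ 2 ≤ Real.exp (ε * φ r) := by
    have e : r ^ 2 = Real.exp (2 * Real.log r) := by
      rw [two_mul, Real.exp_add, Real.exp_log hr, sq]
    rw [e]
    exact Real.exp_le_exp.2 h3
  have h5 : r + c ≤ r ^ 2 := by
    have := le_abs_self c
    nlinarith
  exact hz.trans (h5.trans h4)

include hφ in
theorem small_add {f g : ℂ → ℂ} (hf : SmallF φ f) (hg : SmallF φ g) :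
    SmallF φ fun z => f z + g z := by
  intro c ε hε
  filter_upwards [hf c (ε / 2) (by positivity), hg c (ε / 2) (by positivity),
    (exp_top hφ (half_pos hε)).eventually_ge_atTop 2] with r h1 h2 h3 z hz
  have e : Real.exp (ε * φ r) = Real.exp (ε / 2 * φ r) * Real.exp (ε / 2 * φ r) := by
    rw [← Real.exp_add]
    congr 1
    ring
  rw [e]
  refine (norm_add_le _ _).trans ?_
  have h4 := h1 z hz
  have h5 := h2 z hz
  have h6 : 0 < Real.exp (ε / 2 * φ r) := Real.exp_pos _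
  nlinarith

theorem small_mul {f g : ℂ → ℂ} (hf : SmallF φ f) (hg : SmallF φ g) :
    SmallF φ fun z => f z * g z := by
  intro c ε hε
  filter_upwards [hf c (ε / 2) (by positivity), hg c (ε / 2) (by positivity)] with r h1 h2 z hz
  have e : Real.exp (ε * φ r) = Real.exp (ε / 2 * φ r) * Real.exp (ε / 2 * φ r) := by
    rw [← Real.exp_add]
    congr 1
    ring
  rw [e, norm_mul]
  exact mul_le_mul (h1 z hz) (h2 z hz) (norm_nonneg _) (Real.exp_pos _).le

theorem small_deriv {g : ℂ → ℂ} (hg : Differentiable ℂ g) (h : SmallF φ g) :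
    SmallF φ (deriv g) := by
  intro c ε hε
  filter_upwards [h (c + 1) ε hε] with r h1 z hz
  have h2 := Complex.norm_deriv_le_of_forall_mem_sphere_norm_le (c := z) (R := 1)
    (C := Real.exp (ε * φ r)) (f := g) one_pos hg.diffContOnCl (by
      intro w hw
      apply h1
      have h3 : ‖w - z‖ = 1 := by
        rwa [mem_sphere_iff_norm] at hw
      have h4 : ‖w‖ ≤ ‖w - z‖ + ‖z‖ := by
        calc ‖w‖ = ‖w - z + z‖ := by rw [sub_add_cancel]
          _ ≤ _ := norm_add_le _ _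
      linarith)
  rwa [div_one] at h2

include hφ in
theorem small_of_le {b : ℂ → ℂ} {m : ℕ} {c : Fin m → ℂ → ℂ} (hc : ∀ i, SmallF φ (c i))
    (h : ∀ z, ‖b z‖ ≤ 1 + ∑ i, ‖c i z‖) : SmallF φ b := by
  intro d ε hε
  have h0 : ∀ᶠ r in atTop, ∀ i, ∀ z : ℂ, ‖z‖ ≤ r + d → ‖c i z‖ ≤ Real.exp (ε / 2 * φ r) :=
    eventually_all.2 fun i => hc i d (ε / 2) (by positivity)
  filter_upwards [h0, (exp_top hφ (half_pos hε)).eventually_ge_atTop (1 + (m : ℝ))]
    with r h1 h2 z hz
  have e : Real.exp (ε * φ r) = Real.exp (ε / 2 * φ r) * Real.exp (ε / 2 * φ r) := by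
    rw [← Real.exp_add]
    congr 1
    ring
  have h3 : ∑ i, ‖c i z‖ ≤ m * Real.exp (ε / 2 * φ r) := by
    refine (Finset.sum_le_sum fun i _ => h1 i z hz).trans (le_of_eq ?_)
    rw [Finset.sum_const, Finset.card_univ, Fintype.card_fin, nsmul_eq_mul]
  have hm : (0 : ℝ) ≤ m := Nat.cast_nonneg m
  have h4 : 1 ≤ Real.exp (ε / 2 * φ r) := by linarith
  have h5 := h z
  rw [e]
  generalize Real.exp (ε / 2 * φ r) = E at h2 h3 h4 ⊢
  have h6 : (1 + (m : ℝ)) * E ≤ E * E := mul_le_mul_of_nonneg_right h2 (by linarith)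
  linarith

/-- Vectors of small functions are slow in the sense of the library (`R871.SG.Slow`). -/
theorem slow_vec {n : ℕ} {f : Fin (n + 1) → ℂ → ℂ} (hφ : Tendsto (fun r => φ r / Real.log r) atTop atTop)
    (hf : ∀ j, SmallF φ (f j)) :
    ∀ R : ℝ, ∃ r > R, ∀ z : ℂ, ‖z‖ ≤ r → Real.log ‖fun j => f j z‖ ≤ φ r := by
  intro R
  have h0 : ∀ᶠ r in atTop, ∀ j, ∀ z : ℂ, ‖z‖ ≤ r + 0 → ‖f j z‖ ≤ Real.exp (1 * φ r) :=
    eventually_all.2 fun j => hf j 0 1 one_pos
  obtain ⟨r, ⟨h1, h2⟩, h3⟩ := ((h0.and ((phi_top hφ).eventually_ge_atTop 0)).and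
    (eventually_gt_atTop R)).exists
  refine ⟨r, h3, fun z hz => ?_⟩
  have h4 : ‖fun j => f j z‖ ≤ Real.exp (φ r) := by
    rw [pi_norm_le_iff_of_nonneg (Real.exp_pos _).le]
    intro j
    have := h1 j z (by linarith)
    rwa [one_mul] at this
  rcases (norm_nonneg (fun j => f j z)).eq_or_lt with h5 | h5
  · rw [← h5, Real.log_zero]
    exact h2
  · rw [Real.log_le_iff_le_exp h5]
    exact h4

end Pool.Agent.H436.SC
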