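import Pool.Agent.H436.DT.Main
import Pool.Agent.H436.SC.Int
import Pool.Agent.H436.SC.Growth
import Pool.Agent.H436.SC.Desc
import Pool.Graph.R_seed8.Y377.EL.Fn

/-!
Entire curves given by iterated linear differential equations over a ring of entire functions.
-/

set_option autoImplicit false

namespace Pool.Agent.H436.SC

open MvPolynomial Pool.Agent.H436.DT
open Pool.Agent.Q171.RC (OnRat NC)

/-- The function `z`. -/
def idE : Ent := ⟨fun z => z, differentiable_id⟩

/-- The derivation `D` extends the derivation of the entire functions. -/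
def Compat {E : Type} [Field E] [Algebra ℂ E] (D : Derivation ℂ E E) (ι : Ent →ₐ[ℂ] E) : Prop :=
  ∀ g, D (ι g) = ι (dif g)

/-- The field `E` with the derivation `D` is an extension of the differential ring of the entire
functions. -/
def Ext (E : Type) [Field E] [Algebra ℂ E] (D : Derivation ℂ E E) (ι : Ent →ₐ[ℂ] E) : Prop :=
  Function.Injective ι ∧ Compat D ι

theorem Ext.inj {E : Type} [Field E] [Algebra ℂ E] {D : Derivation ℂ E E} {ι : Ent →ₐ[ℂ] E}
    (h : Ext E D ι) : Function.Injective ι := h.1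

theorem Ext.der {E : Type} [Field E] [Algebra ℂ E] {D : Derivation ℂ E E} {ι : Ent →ₐ[ℂ] E}
    (h : Ext E D ι) (g : Ent) : D (ι g) = ι (dif g) := h.2 g

/-- The field generated by the constants of `E` and the functions in `A`. -/
noncomputable def base {E : Type} [Field E] [Algebra ℂ E] (D : Derivation ℂ E E)
    (ι : Ent →ₐ[ℂ] E) (A : Set Ent) : IntermediateField ℂ E :=
  IntermediateField.adjoin ℂ ({x : E | D x = 0} ∪ ι '' A)

/-- The entire curve `f` has homogeneous coordinates, in some differential extension field `E` of the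
ring of the entire functions, which are given by iterated linear differential equations over the
field generated by the constants and the functions in `A`. -/
def Built {n : ℕ} (A : Set Ent) (f : Fin (n + 1) → Ent) : Prop :=
  ∃ (E : Type) (_ : Field E) (_ : Algebra ℂ E) (D : Derivation ℂ E E) (ι : Ent →ₐ[ℂ] E),
    Ext E D ι ∧ ∃ l : E, l ≠ 0 ∧ ∀ j, IterL (fun _ : Fin 1 => D) (base D ι A) (l * ι (f j))

/-- The curve `f` lies in the zero set of the forms in `S`. -/
def InX {n : ℕ} (S : Set (MvPolynomial (Fin (n + 1)) ℂ)) (f : Fin (n + 1) → Ent) : Prop :=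
  ∀ F ∈ S, ∀ z, eval (fun j => (f j).1 z) F = 0

/-- The curve `f` is constant. -/
def Const {n : ℕ} (f : Fin (n + 1) → Ent) : Prop :=
  ∀ z w j k, (f j).1 z * (f k).1 w = (f k).1 z * (f j).1 w

/-- The entire function `b` satisfies the monic equation with the coefficients `c`. -/
def MonicEq (m : ℕ) (c : Fin m → Ent) (b : Ent) : Prop :=
  ∀ z, b.1 z ^ m + ∑ i : Fin m, (c i).1 z * b.1 z ^ (i : ℕ) = 0

/-- The set `T` is closed under entire solutions of monic equations. -/
def IntClosed (T : Set Ent) : Prop :=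
  ∀ (m : ℕ) (c : Fin m → Ent) (b : Ent), (∀ i, c i ∈ T) → MonicEq m c b → b ∈ T

/-- The set `T` contains `z` and is closed under differentiation and under entire solutions of monic
equations. -/
structure ClosedSet (T : Set Ent) : Prop where
  id : idE ∈ T
  der : ∀ g ∈ T, dif g ∈ T
  int : IntClosed T

/-- The ring `A` contains `z` and is closed under differentiation and under entire solutions of
monic equations. -/
def Closed (A : Subalgebra ℂ Ent) : Prop := ClosedSet (A : Set Ent)

/-- the value at `z` -/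
def evz (z : ℂ) : Ent →ₐ[ℂ] ℂ := (Pi.evalAlgHom ℂ (fun _ : ℂ => ℂ) z).comp Ent.val

theorem evz_apply (z : ℂ) (g : Ent) : evz z g = g.1 z := rfl

theorem ent_ext {g h : Ent} (H : ∀ z, g.1 z = h.1 z) : g = h := Subtype.ext (funext H)

theorem Closed.id {A : Subalgebra ℂ Ent} (h : Closed A) : idE ∈ A := ClosedSet.id h

theorem Closed.der {A : Subalgebra ℂ Ent} (h : Closed A) : ∀ g ∈ A, dif g ∈ A := ClosedSet.der h

theorem Closed.int {A : Subalgebra ℂ Ent} (h : Closed A) (m : ℕ) (c : Fin m → Ent) (b : Ent)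
    (hc : ∀ i, c i ∈ A) (hb : b ^ m + ∑ i : Fin m, c i * b ^ (i : ℕ) = 0) : b ∈ A := by
  refine ClosedSet.int h m c b hc fun z => ?_
  have h1 := congrArg (evz z) hb
  rw [map_add, map_pow, map_sum, map_zero] at h1
  rw [← h1]
  congr 1

theorem evz_aeval {n : ℕ} (z : ℂ) (f : Fin (n + 1) → Ent) (F : MvPolynomial (Fin (n + 1)) ℂ) :
    evz z (aeval f F) = eval (fun j => (f j).1 z) F := by
  rw [MvPolynomial.comp_aeval_apply]
  rfl

theorem aeval_eq_zero {n : ℕ} {f : Fin (n + 1) → Ent} {F : MvPolynomial (Fin (n + 1)) ℂ} :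
    aeval f F = 0 ↔ ∀ z, eval (fun j => (f j).1 z) F = 0 := by
  constructor
  · intro h z
    rw [← evz_aeval, h, map_zero]
  · intro h
    refine ent_ext fun z => ?_
    have h1 := evz_aeval z f F
    rw [h z, evz_apply] at h1
    exact h1

theorem aeval_smul_vec {R : Type} [CommRing R] [Algebra ℂ R] {n e : ℕ}
    {F : MvPolynomial (Fin (n + 1)) ℂ} (hF : F.IsHomogeneous e) (l : R) (f : Fin (n + 1) → R) :
    aeval (fun j => l * f j) F = l ^ e * aeval f F := by
  rw [MvPolynomial.aeval_def, MvPolynomial.aeval_def, MvPolynomial.eval₂_eq, MvPolynomial.eval₂_eq,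
    Finset.mul_sum]
  refine Finset.sum_congr rfl fun α hα => ?_
  have h1 : ∑ i ∈ α.support, α i = e := by
    have := hF (mem_support_iff.1 hα)
    rw [← this, Finsupp.weight_apply, Finsupp.sum]
    exact Finset.sum_congr rfl fun i _ => by simp
  rw [← h1]
  simp only [mul_pow, Finset.prod_mul_distrib, Finset.prod_pow_eq_pow_sum]
  ring

/-- The base is a differential field. -/
theorem dfield {A : Subalgebra ℂ Ent} (hA : ∀ g ∈ A, dif g ∈ A)
    {E : Type} [Field E] [Algebra ℂ E] {D : Derivation ℂ E E} {ι : Ent →ₐ[ℂ] E} (hE : Ext E D ι) :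
    DField (fun _ : Fin 1 => D) (base D ι (A : Set Ent)) := by
  constructor
  · intro _ x hx
    have h1 : (base D ι (A : Set Ent)).toSubfield = Subfield.closure
        (Set.range (algebraMap ℂ E) ∪ ({x : E | D x = 0} ∪ ι '' (A : Set Ent))) := rfl
    have h2 := SA.closure_stable D
      (Set.range (algebraMap ℂ E) ∪ ({x : E | D x = 0} ∪ ι '' (A : Set Ent))) (by
      rintro y (⟨c, rfl⟩ | hy | ⟨g, hg, rfl⟩)
      · rw [D.map_algebraMap]
        exact zero_mem _
      · have hy' : D y = 0 := hy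
        rw [hy']
        exact zero_mem _
      · rw [hE.der]
        exact Subfield.subset_closure (Or.inr (Or.inr ⟨_, hA g hg, rfl⟩))) x (by
      rw [← h1]
      exact hx)
    rw [← h1] at h2
    exact h2
  · intro x hx
    exact IntermediateField.subset_adjoin ℂ _ (Or.inl (hx 0))

/-- The ratios of the coordinates are algebraic, or there is a rational curve. -/
theorem ratio {n : ℕ} {S : Finset (MvPolynomial (Fin (n + 1)) ℂ)}
    (hS : ∀ F ∈ S, ∃ e, F.IsHomogeneous e) {A : Subalgebra ℂ Ent} (hA : ∀ g ∈ A, dif g ∈ A)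
    {E : Type} [Field E] [Algebra ℂ E] {D : Derivation ℂ E E} {ι : Ent →ₐ[ℂ] E} (hE : Ext E D ι)
    {f : Fin (n + 1) → Ent} (hf : InX (S : Set (MvPolynomial (Fin (n + 1)) ℂ)) f) {l : E}
    (hl : l ≠ 0)
    (hb : ∀ j, IterL (fun _ : Fin 1 => D) (base D ι (A : Set Ent)) (l * ι (f j)))
    (hno : ∀ (N : ℕ) (y : Fin (n + 1) → ℂ), ¬ OnRat (S : Set (MvPolynomial (Fin (n + 1)) ℂ)) N y)
    (u v : Fin (n + 1)) (hv : f v ≠ 0) :
    IsAlgebraic (base D ι (A : Set Ent)) (ι (f u) / ι (f v)) := by
  by_contra hna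
  have hF := dfield hA hE
  have hvE : ι (f v) ≠ 0 := fun h0 => hv (hE.inj (h0.trans (map_zero ι).symm))
  have hS0 : ∀ F ∈ S, aeval (fun j => l * ι (f j)) F = 0 := by
    intro F hFS
    obtain ⟨e, he⟩ := hS F hFS
    have h1 : aeval (fun j => ι (f j)) F = ι (aeval f F) :=
      (MvPolynomial.comp_aeval_apply (f := f) ι F).symm
    rw [aeval_smul_vec he l (fun j => ι (f j)), h1, aeval_eq_zero.2 (hf F hFS), map_zero, mul_zero]
  obtain ⟨N, hN⟩ := coreL (K := ℂ) hF hb (u := u) (v := v) (mul_ne_zero hl hvE) (by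
    rwa [mul_div_mul_left _ _ hl]) S hS hS0
  obtain ⟨w, hw⟩ : ∃ w, (f v).1 w ≠ 0 := by
    by_contra hcon
    push Not at hcon
    exact hv (ent_ext hcon)
  refine hno N (fun j => (f j).1 w) (hN _ (fun h0 => hw (congrFun h0 v)) ?_)
  rintro G ⟨e, he⟩ hG
  have h1 : aeval (fun j => ι (f j)) G = ι (aeval f G) :=
    (MvPolynomial.comp_aeval_apply (f := f) ι G).symm
  rw [aeval_smul_vec he l (fun j => ι (f j)), h1] at hG
  have h2 : aeval f G = 0 := hE.inj (by
    rw [map_zero]
    exact (mul_eq_zero.1 hG).resolve_left (pow_ne_zero _ hl))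
  exact aeval_eq_zero.1 h2 w

open IntermediateField.algebraAdjoinAdjoin in
theorem alg_adjoin {E : Type} [Field E] [Algebra ℂ E] {T : Set E} {x : E}
    (h : IsAlgebraic (IntermediateField.adjoin ℂ T) x) : IsAlgebraic (Algebra.adjoin ℂ T) x :=
  (IsFractionRing.isAlgebraic_iff (Algebra.adjoin ℂ T) (IntermediateField.adjoin ℂ T) E).2 h

/-- Ratios which are algebraic over the field of `A` are ratios of functions in `A`. -/
theorem ratio_mem {A : Subalgebra ℂ Ent} (hA : Closed A)
    {E : Type} [Field E] [Algebra ℂ E] {ι : Ent →ₐ[ℂ] E} (hι : Function.Injective ι)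
    {p q : Ent} (hq : q ≠ 0)
    (halg : IsAlgebraic (IntermediateField.adjoin ℂ (ι '' (A : Set Ent))) (ι p / ι q)) :
    ∃ c ∈ A, ∃ b ∈ A, c ≠ 0 ∧ c * p = b * q := by
  classical
  have hdom : IsDomain Ent := hι.isDomain ι.toRingHom
  have hqE : ι q ≠ 0 := fun h0 => hq (hι (h0.trans (map_zero ι).symm))
  -- the subalgebra
  have h1 : IsAlgebraic (Algebra.adjoin ℂ (ι '' (A : Set Ent))) (ι p / ι q) := alg_adjoin halg
  have h2 : Algebra.adjoin ℂ (ι '' (A : Set Ent)) = A.map ι := by
    rw [← Subalgebra.coe_map, Algebra.adjoin_eq]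
  obtain ⟨P, hP0, hP⟩ := h1
  have hco : ∀ i, ∃ c ∈ A, ι c = (P.coeff i : E) := by
    intro i
    have h3 : ((P.coeff i : Algebra.adjoin ℂ (ι '' (A : Set Ent))) : E) ∈ A.map ι := by
      rw [← h2]
      exact (P.coeff i).2
    obtain ⟨c, hc, hc'⟩ := h3
    exact ⟨c, hc, hc'⟩
  choose c hcA hc using hco
  set m := P.natDegree with hm
  have hcm : c m ≠ 0 := by
    intro h0
    apply hP0
    rw [← Polynomial.leadingCoeff_eq_zero]
    apply Subtype.ext
    have h3 := hc m
    rw [h0, map_zero] at h3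
    exact h3.symm
  -- the homogeneous equation
  have h4 : ∑ i ∈ Finset.range (m + 1), c i * p ^ i * q ^ (m - i) = 0 := by
    apply hι
    rw [map_zero, map_sum]
    rw [Polynomial.aeval_eq_sum_range] at hP
    have h5 : ∑ i ∈ Finset.range (m + 1), ι (c i * p ^ i * q ^ (m - i)) =
        ι q ^ m * ∑ i ∈ Finset.range (m + 1), P.coeff i • (ι p / ι q) ^ i := by
      rw [Finset.mul_sum]
      refine Finset.sum_congr rfl fun i hi => ?_
      have hi' : i ≤ m := Nat.lt_succ_iff.1 (Finset.mem_range.1 hi)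
      have h6 : P.coeff i • (ι p / ι q) ^ i = ι (c i) * (ι p / ι q) ^ i := by
        rw [hc i]
        rfl
      rw [h6, map_mul, map_mul, map_pow, map_pow, div_pow]
      have h7 : ι q ^ m = ι q ^ i * ι q ^ (m - i) := by
        rw [← pow_add]
        congr 1
        omega
      rw [h7]
      have h8 : ι q ^ i ≠ 0 := pow_ne_zero _ hqE
      field_simp
    rw [h5, hP, mul_zero]
  rcases Nat.eq_zero_or_pos m with hm0 | hmpos
  · exfalso
    rw [hm0] at h4
    simp only [zero_add, Finset.range_one, Finset.sum_singleton, pow_zero, mul_one,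
      Nat.sub_self] at h4
    rw [hm0] at hcm
    exact hcm h4
  -- the monic equation of `c m * p`
  have h9 : (c m * p) ^ m + ∑ i : Fin m, (c i * c m ^ (m - 1 - i)) * (c m * p) ^ (i : ℕ) *
      q ^ (m - (i : ℕ)) = 0 := by
    have h10 : c m ^ (m - 1) * ∑ i ∈ Finset.range (m + 1), c i * p ^ i * q ^ (m - i) = 0 := by
      rw [h4, mul_zero]
    rw [Finset.sum_range_succ, mul_add, Finset.mul_sum, Nat.sub_self, pow_zero, mul_one,
      add_comm] at h10
    rw [← h10]
    congr 1
    · have h11 : c m ^ m = c m ^ (m - 1) * c m := by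
        rw [← pow_succ]
        congr 1
        omega
      rw [mul_pow, h11]
      ring
    · rw [Fin.sum_univ_eq_sum_range (fun i => c i * c m ^ (m - 1 - i) * (c m * p) ^ i *
        q ^ (m - i)) m]
      refine Finset.sum_congr rfl fun i hi => ?_
      have hi' : i < m := Finset.mem_range.1 hi
      have h11 : c m ^ (m - 1) = c m ^ (m - 1 - i) * c m ^ i := by
        rw [← pow_add]
        congr 1
        omega
      rw [h11, mul_pow]
      ring
  obtain ⟨b, hb1, hb2, hb3⟩ := entire_of_integral (p := (c m * p).1) (q := q.1) (c m * p).2 q.2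
    (by
      by_contra hcon
      push Not at hcon
      exact hq (ent_ext hcon)) (m := m) (fun i => (c i * c m ^ (m - 1 - (i : ℕ))).1)
    (fun i => (c i * c m ^ (m - 1 - (i : ℕ))).2) (fun z => by
      have h12 := congrArg (evz z) h9
      rw [map_add, map_pow, map_sum, map_zero] at h12
      simp only [map_mul, map_pow] at h12
      rw [← h12]
      simp only [← map_mul, ← map_pow]
      rfl)
  refine ⟨c m, hcA m, ⟨b, hb1⟩, ?_, hcm, ent_ext hb2⟩
  refine hA.int m (fun i => c i * c m ^ (m - 1 - (i : ℕ))) _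
    (fun i => mul_mem (hcA _) (pow_mem (hcA _) _)) (ent_ext fun z => ?_)
  have h13 := hb3 z
  have h14 : evz z ((⟨b, hb1⟩ : Ent) ^ m + ∑ i : Fin m, (c i * c m ^ (m - 1 - (i : ℕ))) *
      (⟨b, hb1⟩ : Ent) ^ (i : ℕ)) = 0 := by
    rw [map_add, map_pow, map_sum]
    rw [← h13]
    congr 1
  exact h14

/-- Proportional curves. -/
theorem const_of_prop {n : ℕ} [IsDomain Ent] {f g : Fin (n + 1) → Ent} {P q : Ent} (hP : P ≠ 0)
    (h : ∀ u, P * f u = g u * q) (hg : Const g) : Const f := by
  have hcr : ∀ z w j k, P.1 z * P.1 w * ((f j).1 z * (f k).1 w - (f k).1 z * (f j).1 w) = 0 := by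
    intro z w j k
    have h1 : ∀ u x, P.1 x * (f u).1 x = (g u).1 x * q.1 x := fun u x =>
      congrArg (evz x) (h u)
    have h2 := hg z w j k
    calc P.1 z * P.1 w * ((f j).1 z * (f k).1 w - (f k).1 z * (f j).1 w)
        = (P.1 z * (f j).1 z) * (P.1 w * (f k).1 w) -
          (P.1 z * (f k).1 z) * (P.1 w * (f j).1 w) := by ring
      _ = q.1 z * q.1 w * ((g j).1 z * (g k).1 w - (g k).1 z * (g j).1 w) := by
        rw [h1, h1, h1, h1]
        ring
      _ = 0 := by rw [h2, sub_self, mul_zero]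
  -- off the zeros of `P (w)`
  have h3 : ∀ w, P.1 w ≠ 0 → ∀ z j k, (f j).1 z * (f k).1 w = (f k).1 z * (f j).1 w := by
    intro w hw z j k
    have h4 : P * (f j * algebraMap ℂ Ent ((f k).1 w) - f k * algebraMap ℂ Ent ((f j).1 w)) = 0 := by
      refine ent_ext fun x => ?_
      have h5 := hcr x w j k
      have h6 : P.1 x * ((f j).1 x * (f k).1 w - (f k).1 x * (f j).1 w) = 0 := by
        apply mul_left_cancel₀ hw
        rw [mul_zero, ← h5]
        ring
      exact h6
    have h7 := (mul_eq_zero.1 h4).resolve_left hP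
    have h8 := congrArg (evz z) h7
    exact sub_eq_zero.1 h8
  intro z w j k
  have h4 : P * (algebraMap ℂ Ent ((f j).1 z) * f k - algebraMap ℂ Ent ((f k).1 z) * f j) = 0 := by
    refine ent_ext fun x => ?_
    by_cases hx : P.1 x = 0
    · change P.1 x * _ = 0
      rw [hx, zero_mul]
    · change P.1 x * ((f j).1 z * (f k).1 x - (f k).1 z * (f j).1 x) = 0
      rw [h3 x hx z j k, sub_self, mul_zero]
  have h7 := (mul_eq_zero.1 h4).resolve_left hP
  have h8 := congrArg (evz w) h7
  exact sub_eq_zero.1 h8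

/-- Polynomials. -/
theorem poly_mem {A : Subalgebra ℂ Ent} (hid : idE ∈ A) (p : Polynomial ℂ) :
    ∃ g ∈ A, ∀ z, g.1 z = p.eval z := by
  refine ⟨Polynomial.aeval idE p, Algebra.adjoin_le (Set.singleton_subset_iff.2 hid)
    (Polynomial.aeval_mem_adjoin_singleton ℂ idE), fun z => ?_⟩
  change evz z (Polynomial.aeval idE p) = _
  rw [← Polynomial.aeval_algHom_apply, Polynomial.coe_aeval_eq_eval]
  rfl

/-- **The principle.** -/
theorem principle {n : ℕ} {S : Finset (MvPolynomial (Fin (n + 1)) ℂ)}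
    (hS : ∀ F ∈ S, ∃ e, F.IsHomogeneous e) {A : Subalgebra ℂ Ent} (hA : Closed A)
    (hX : ∀ g : Fin (n + 1) → Ent, (∀ j, g j ∈ A) →
      InX (S : Set (MvPolynomial (Fin (n + 1)) ℂ)) g → Const g)
    {f : Fin (n + 1) → Ent} (hf : InX (S : Set (MvPolynomial (Fin (n + 1)) ℂ)) f)
    (hb : Built (A : Set Ent) f) : Const f := by
  classical
  obtain ⟨E, _, _, D, ι, hE, l, hl, hb⟩ := hb
  have hdom : IsDomain Ent := hE.inj.isDomain ι.toRingHom
  by_cases hf0 : ∀ j, f j = 0
  · intro z w j k
    rw [hf0 j, hf0 k]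
  push Not at hf0
  obtain ⟨v, hv⟩ := hf0
  -- no rational curves
  have hno : ∀ (N : ℕ) (y : Fin (n + 1) → ℂ),
      ¬ OnRat (S : Set (MvPolynomial (Fin (n + 1)) ℂ)) N y := by
    rintro N y ⟨p, hnc, -, hp, -⟩
    choose g hgA hg using fun j => poly_mem hA.id (p j)
    obtain ⟨s, t, i, j, hne⟩ := hnc
    apply hne
    have h1 := hX g hgA (fun F hF z => by
      have h2 : eval (fun j => (g j).1 z) F = Polynomial.eval z (aeval p F) := by
        have h3 : (fun j => (g j).1 z) = fun j => Polynomial.eval z (p j) := funext fun j => hg j z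
        rw [h3]
        change _ = Polynomial.evalRingHom z (aeval p F)
        rw [MvPolynomial.aeval_def, MvPolynomial.hom_eval₂]
        have h4 : (Polynomial.evalRingHom z).comp (algebraMap ℂ (Polynomial ℂ)) = RingHom.id ℂ := by
          ext x
          simp
        rw [h4]
        rfl
      rw [h2, hp F hF, Polynomial.eval_zero]) s t i j
    rw [hg, hg, hg, hg] at h1
    exact h1
  have hrat := fun u => ratio_mem hA hE.inj (p := f u) hv
    (SC2.alg_descent D ι hE.inj hE.der A (ratio hS hA.der hE hf hl hb hno u v hv))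
  choose c hcA b hbA hc hcb using hrat
  let P : Ent := ∏ u, c u
  let g : Fin (n + 1) → Ent := fun u => b u * ∏ x ∈ Finset.univ.erase u, c x
  have hP : P ≠ 0 := Finset.prod_ne_zero_iff.2 fun u _ => hc u
  have hPg : ∀ u, P * f u = g u * f v := by
    intro u
    have h1 : P = c u * ∏ x ∈ Finset.univ.erase u, c x :=
      (Finset.mul_prod_erase Finset.univ c (Finset.mem_univ u)).symm
    rw [h1]
    calc c u * (∏ x ∈ Finset.univ.erase u, c x) * f u
        = (c u * f u) * ∏ x ∈ Finset.univ.erase u, c x := by ring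
      _ = b u * f v * ∏ x ∈ Finset.univ.erase u, c x := by rw [hcb u]
      _ = g u * f v := by
        change _ = b u * (∏ x ∈ Finset.univ.erase u, c x) * f v
        ring
  refine const_of_prop hP hPg (hX g (fun u => mul_mem (hbA u) (prod_mem fun x _ => hcA x)) ?_)
  intro F hF
  rw [← aeval_eq_zero]
  obtain ⟨e, he⟩ := hS F hF
  have h1 : aeval (fun u => f v * g u) F = f v ^ e * aeval g F := aeval_smul_vec he _ _
  have h2 : aeval (fun u => P * f u) F = P ^ e * aeval f F := aeval_smul_vec he _ _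
  have h3 : (fun u => P * f u) = fun u => f v * g u := funext fun u => by
    rw [hPg, mul_comm]
  rw [h3, h1, aeval_eq_zero.2 (hf F hF), mul_zero] at h2
  exact (mul_eq_zero.1 h2).resolve_left (pow_ne_zero _ hv)

theorem ent_dom {f g : Ent} (h : f * g = 0) : f = 0 ∨ g = 0 := by
  by_contra hcon
  push Not at hcon
  obtain ⟨hf, hg⟩ := hcon
  have h1 : ∃ z, f.1 z ≠ 0 := by
    by_contra hc
    push Not at hc
    exact hf (ent_ext hc)
  have h2 : ∃ z, g.1 z ≠ 0 := by
    by_contra hc
    push Not at hc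
    exact hg (ent_ext hc)
  obtain ⟨z, hz1, hz2⟩ := ((ne_near f.2 h1 0).and (ne_near g.2 h2 0)).exists
  have h3 : f.1 z * g.1 z = 0 := congrArg (evz z) h
  exact (mul_ne_zero hz1 hz2) h3

instance : Nontrivial Ent := ⟨⟨0, 1, fun h => by
  have h1 : (0 : ℂ) = 1 := congrArg (evz 0) h
  exact zero_ne_one h1⟩⟩

instance : NoZeroDivisors Ent := ⟨fun h => ent_dom h⟩

instance : IsDomain Ent := NoZeroDivisors.to_isDomain _

/-- The derivation of the ring of the entire functions. -/
noncomputable def der0 : Derivation ℂ Ent Ent := Derivation.mk'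
  { toFun := dif
    map_add' := fun f g => ent_ext fun z => by
      change deriv (f.1 + g.1) z = deriv f.1 z + deriv g.1 z
      exact deriv_add (f.2 z) (g.2 z)
    map_smul' := fun c f => ent_ext fun z => by
      change deriv (c • f.1) z = c • deriv f.1 z
      exact deriv_const_smul c (f.2 z) } fun f g => ent_ext fun z => by
      change deriv (f.1 * g.1) z = f.1 z * deriv g.1 z + g.1 z * deriv f.1 z
      rw [deriv_mul (f.2 z) (g.2 z)]
      ring

/-- The field of the meromorphic functions. -/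
theorem built_self {n : ℕ} (A : Set Ent) {f : Fin (n + 1) → Ent} (hf : ∀ j, f j ∈ A) :
    Built A f := by
  obtain ⟨D, hD⟩ := Pool.Agent.Y377.EL.exists_derFrac der0
  refine ⟨FractionRing Ent, inferInstance, inferInstance, D,
    IsScalarTower.toAlgHom ℂ Ent (FractionRing Ent),
    ⟨IsFractionRing.injective Ent (FractionRing Ent), hD⟩, 1, one_ne_zero, fun j => ?_⟩
  rw [one_mul]
  exact IterL.base (IntermediateField.subset_adjoin ℂ _ (Or.inr ⟨f j, hf j, rfl⟩))

end Pool.Agent.H436.SC
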