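import Pool.Agent.H436.SC.Main
import Pool.Graph.R_pool_sql_team_seeded_2aa45f1a.Q171.RC.Gen
import Pool.Graph.R_pool_sql_team_seeded_63374d34.Results.MP_b509a1_ag.SlowEntireCurves

/-!
Entire curves given by iterated linear differential equations over slowly growing functions.
-/

set_option autoImplicit false

namespace Pool.Agent.H436.SC

open MvPolynomial Filter Pool.Agent.R871.SG Pool.Agent.N634.SH

/-- The functions of growth `o(φ)`. -/
def small (φ : ℝ → ℝ) (hφ : Grows φ) : Subalgebra ℂ Ent where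
  carrier := {g | SmallF φ g.1}
  mul_mem' := fun ha hb => small_mul ha hb
  add_mem' := fun ha hb => small_add hφ ha hb
  algebraMap_mem' := fun c => small_const hφ c

theorem small_closed {φ : ℝ → ℝ} (hφ : Grows φ) : Closed (small φ hφ) where
  id := small_id hφ
  der := fun g hg => small_deriv g.2 hg
  int := by
    intro m c b hc h
    refine small_of_le hφ (c := fun i => (c i).1) hc fun z => ?_
    exact root_bound (b.1 z) (fun i => (c i).1 z) (h z)

/-- All entire curves in the zero set of `S` which are given by iterated linear differential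
equations over functions of growth `o(φ)` are constant. -/
def HypOver {n : ℕ} (φ : ℝ → ℝ) (S : Set (MvPolynomial (Fin (n + 1)) ℂ)) : Prop :=
  ∀ f : Fin (n + 1) → Ent, InX S f → Built {g : Ent | SmallF φ g.1} f → Const f

theorem hyp_of {n : ℕ} {φ : ℝ → ℝ} (hφ : Grows φ) {S : Finset (MvPolynomial (Fin (n + 1)) ℂ)}
    (hS : ∀ F ∈ S, ∃ e, F.IsHomogeneous e)
    (h : ∀ f : ℂ → Fin (n + 1) → ℂ, Differentiable ℂ f → Slow φ f →
      (∀ F ∈ S, ∀ z, eval (f z) F = 0) → ∀ z w j k, f z j * f w k = f z k * f w j) :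
    HypOver φ (S : Set (MvPolynomial (Fin (n + 1)) ℂ)) := by
  intro f hf hb
  refine principle hS (small_closed hφ) (fun g hg hgX => ?_) hf hb
  exact h (fun z j => (g j).1 z) (differentiable_pi.2 fun j => (g j).2)
    (slow_vec (f := fun j => (g j).1) hφ hg) hgX

/-- The zero set of `S` contains no rational curve. -/
def NoRat {n : ℕ} (S : Set (MvPolynomial (Fin (n + 1)) ℂ)) : Prop :=
  ∀ p : Fin (n + 1) → Polynomial ℂ, (∀ F ∈ S, aeval p F = 0) →
    ∀ s t i j, (p i).eval s * (p j).eval t = (p j).eval s * (p i).eval t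

theorem noRat_of_hyp {n : ℕ} {φ : ℝ → ℝ} (hφ : Grows φ)
    {S : Set (MvPolynomial (Fin (n + 1)) ℂ)} (h : HypOver φ S) : NoRat S := by
  intro p hp s t i j
  choose g hgA hg using fun j => poly_mem (A := small φ hφ) (small_id hφ) (p j)
  have h0 : InX S g := by
    intro F hF z
    have h3 : (fun j => (g j).1 z) = pc p z := funext fun j => hg j z
    rw [h3, ← eval_pc, hp F hF, Polynomial.eval_zero]
  have hb : Built {g : Ent | SmallF φ g.1} g := built_self _ hgA
  have h1 := h g h0 hb s t i j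
  rw [hg, hg, hg, hg] at h1
  exact h1

theorem noRat_iff {n : ℕ} {S : Finset (MvPolynomial (Fin (n + 1)) ℂ)}
    (hS : ∀ F ∈ S, ∃ e, F.IsHomogeneous e) :
    NoRat (S : Set (MvPolynomial (Fin (n + 1)) ℂ)) ↔
      ∃ φ : ℝ → ℝ, Grows φ ∧ HypOver φ (S : Set (MvPolynomial (Fin (n + 1)) ℂ)) := by
  constructor
  · intro h
    obtain ⟨φ, hφ, h1⟩ := slow_gen (n := n) (fun k : S => k.1) (fun i : Fin 0 => i.elim0) ∅
      (fun _ => Set.univ) (fun _ => isClosed_univ) (by
        rintro - c - b - P hP - ⟨z, z', i, j, hne⟩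
        refine hne (h P (fun F hF => ?_) z z' i j)
        refine Polynomial.funext fun x => ?_
        rw [eval_pc, Polynomial.eval_zero]
        exact hP ⟨F, hF⟩ x)
    refine ⟨φ, hφ, hyp_of hφ hS fun f hf hs hfX z w j k => ?_⟩
    by_contra hne
    exact h1 0 (fun x => x.1.elim0) (Set.mem_univ _) (fun i => i.elim0) (fun i => i.elim0) f hf hs
      (fun k z => hfX k.1 k.2 z) (fun i => i.elim0) ⟨z, w, j, k, hne⟩
  · rintro ⟨φ, hφ, h⟩
    exact noRat_of_hyp hφ h

theorem general {n d : ℕ} (hd : 2 * n + 2 ≤ d) :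
    ∃ Φ : ℕ → MvPolynomial (Ix (n + 1) fun _ : Fin 1 => d) ℂ, (∀ N, Φ N ≠ 0) ∧
      (∀ K : ℕ → Set (Ix (n + 1) (fun _ : Fin 1 => d) → ℂ), (∀ l, IsClosed (K l)) →
        (∀ l, ∀ c ∈ K l, ∀ N, eval c (Φ N) ≠ 0) →
        ∃ φ : ℝ → ℝ, Grows φ ∧ ∀ l, ∀ c ∈ K l, HypOver φ {form c 0}) ∧
      ∃ φ : ℝ → ℝ, Grows φ ∧
        ∀ᵐ c : Ix (n + 1) (fun _ : Fin 1 => d) → ℂ, HypOver φ {form c 0} := by
  have key : ∀ (φ : ℝ → ℝ), Grows φ → ∀ c : Ix (n + 1) (fun _ : Fin 1 => d) → ℂ,
      AllConstIn (fun e : Empty => (e.elim : MvPolynomial (Fin (n + 1 + 1)) ℂ)) φ {0} c →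
      HypOver φ {form c 0} := by
    intro φ hφ c h
    have h1 := hyp_of (S := {form c 0}) hφ (by
      intro F hF
      rw [Finset.mem_singleton] at hF
      rw [hF]
      exact ⟨_, form_hom c 0⟩) fun f hf hs hfX => h f hf hs (fun k => k.elim) (by
        intro i hi z
        rw [Finset.mem_singleton.1 hi]
        exact hfX _ (Finset.mem_singleton_self _) z) (by
        intro i hi
        exact absurd (Finset.mem_singleton.2 (Subsingleton.elim i 0)) hi)
    rw [Finset.coe_singleton] at h1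
    exact h1
  obtain ⟨Φ, h1, h2, φ, hφ, h3⟩ := Pool.Agent.Results.MP_b509a1_ag.SlowEntireCurves.result (n + 1) 1
    (n + 1) Empty (fun e => e.elim) (fun e => e.elim)
    (Pool.Agent.Q171.RC.trdeg_pn (n + 1)) (fun _ => d) {0} (by simp; omega)
  refine ⟨Φ, h1, fun K hK hKΦ => ?_, φ, hφ, h3.mono fun c hc => key φ hφ c hc⟩
  obtain ⟨ψ, hψ, h4⟩ := h2 K hK hKΦ
  exact ⟨ψ, hψ, fun l c hc => key ψ hψ c (h4 l c hc)⟩

end Pool.Agent.H436.SC
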