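import Pool.Agent.H436.SC.Growth

/-!
Transcendental entire functions of slow growth. Mathlib only.
-/

set_option autoImplicit false

namespace Pool.Agent.H436.SC

open Filter Topology

lemma term_bound {R : ℕ → ℝ} (hR : StrictMono R) (hR2 : ∀ k, 2 ≤ R k) {ρ : ℝ} (hρ : 1 ≤ ρ)
    {j : ℕ} (hj : ρ ≤ 2 * R (j + 1)) (k : ℕ) :
    (ρ / (4 * R k)) ^ k ≤ ρ ^ j * (1 / 2) ^ k := by
  have hRk : 0 < R k := by linarith [hR2 k]
  have hρ0 : 0 ≤ ρ := by linarith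
  rcases Nat.lt_or_ge j k with h | h
  · have h1 : R (j + 1) ≤ R k := hR.monotone h
    have h2 : ρ / (4 * R k) ≤ 1 / 2 := by
      rw [div_le_iff₀ (by linarith)]
      linarith
    have h3 : (1 : ℝ) ≤ ρ ^ j := one_le_pow₀ hρ
    calc (ρ / (4 * R k)) ^ k ≤ (1 / 2) ^ k := pow_le_pow_left₀ (by positivity) h2 k
      _ = 1 * (1 / 2) ^ k := (one_mul _).symm
      _ ≤ ρ ^ j * (1 / 2) ^ k := mul_le_mul_of_nonneg_right h3 (by positivity)
  · have h2 : 1 / (4 * R k) ≤ 1 / 2 := by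
      rw [div_le_div_iff₀ (by linarith) (by norm_num)]
      linarith [hR2 k]
    have h4 : ρ / (4 * R k) = ρ * (1 / (4 * R k)) := by rw [mul_one_div]
    calc (ρ / (4 * R k)) ^ k = ρ ^ k * (1 / (4 * R k)) ^ k := by rw [h4, mul_pow]
      _ ≤ ρ ^ j * (1 / 2) ^ k :=
        mul_le_mul (pow_le_pow_right₀ hρ h) (pow_le_pow_left₀ (by positivity) h2 k)
          (by positivity) (by positivity)

/-- The series `∑ (z / (4 R_k))^k`. -/
noncomputable def gser (R : ℕ → ℝ) (z : ℂ) : ℂ := ∑' k : ℕ, (z / (4 * (R k : ℂ))) ^ k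

lemma norm_term {R : ℕ → ℝ} (hR2 : ∀ k, 2 ≤ R k) (z : ℂ) (k : ℕ) :
    ‖(z / (4 * (R k : ℂ))) ^ k‖ = (‖z‖ / (4 * R k)) ^ k := by
  have hRk : 0 ≤ R k := by linarith [hR2 k]
  rw [norm_pow, norm_div, norm_mul, Complex.norm_real, Real.norm_of_nonneg hRk]
  norm_num

lemma norm_term_le {R : ℕ → ℝ} (hR : StrictMono R) (hR2 : ∀ k, 2 ≤ R k) {ρ : ℝ} (hρ : 1 ≤ ρ)
    {j : ℕ} (hj : ρ ≤ 2 * R (j + 1)) (k : ℕ) {z : ℂ} (hz : ‖z‖ ≤ ρ) :
    ‖(z / (4 * (R k : ℂ))) ^ k‖ ≤ ρ ^ j * (1 / 2) ^ k := by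
  have hRk : 0 < R k := by linarith [hR2 k]
  rw [norm_term hR2]
  refine le_trans ?_ (term_bound hR hR2 hρ hj k)
  exact pow_le_pow_left₀ (by positivity) (div_le_div_of_nonneg_right hz (by positivity)) k

lemma gser_norm_le {R : ℕ → ℝ} (hR : StrictMono R) (hR2 : ∀ k, 2 ≤ R k) {ρ : ℝ} (hρ : 1 ≤ ρ)
    {j : ℕ} (hj : ρ ≤ 2 * R (j + 1)) {z : ℂ} (hz : ‖z‖ ≤ ρ) :
    ‖gser R z‖ ≤ ρ ^ j * 2 :=
  tsum_of_norm_bounded (hasSum_geometric_two.mul_left (ρ ^ j))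
    fun k => norm_term_le hR hR2 hρ hj k hz

lemma gser_diff {R : ℕ → ℝ} (hR : StrictMono R) (hR2 : ∀ k, 2 ≤ R k)
    (hlim : ∀ x : ℝ, ∃ k, x ≤ 2 * R (k + 1)) : Differentiable ℂ (gser R) := by
  intro z
  obtain ⟨j, hj⟩ := hlim (‖z‖ + 1)
  have hρ : (1 : ℝ) ≤ ‖z‖ + 1 := by linarith [norm_nonneg z]
  have h : DifferentiableOn ℂ (fun w => ∑' k : ℕ, (w / (4 * (R k : ℂ))) ^ k)
      (Metric.ball (0 : ℂ) (‖z‖ + 1)) := by
    refine Complex.differentiableOn_tsum_of_summable_norm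
      (u := fun k : ℕ => (‖z‖ + 1) ^ j * (1 / 2 : ℝ) ^ k)
      (summable_geometric_two.mul_left _) (fun k => ?_) Metric.isOpen_ball (fun k w hw => ?_)
    · exact ((differentiable_id.div_const _).pow k).differentiableOn
    · refine norm_term_le hR hR2 hρ hj k ?_
      rw [mem_ball_zero_iff] at hw
      exact hw.le
  have hz : z ∈ Metric.ball (0 : ℂ) (‖z‖ + 1) := by
    rw [mem_ball_zero_iff]
    linarith
  exact (h z hz).differentiableAt (Metric.isOpen_ball.mem_nhds hz)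

lemma gser_real {R : ℕ → ℝ} (hR : StrictMono R) (hR2 : ∀ k, 2 ≤ R k)
    (hlim : ∀ x : ℝ, ∃ k, x ≤ 2 * R (k + 1)) {x : ℝ} (hx : 1 ≤ x) (n : ℕ) :
    (x / (4 * R n)) ^ n ≤ ‖gser R (x : ℂ)‖ := by
  obtain ⟨j, hj⟩ := hlim x
  have hx0 : 0 ≤ x := by linarith
  have hpos : ∀ k, 0 ≤ (x / (4 * R k)) ^ k := fun k => by
    have : 0 < R k := by linarith [hR2 k]
    positivity
  have hs : Summable fun k : ℕ => (x / (4 * R k)) ^ k :=
    Summable.of_nonneg_of_le hpos (term_bound hR hR2 hx hj)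
      (summable_geometric_two.mul_left (x ^ j))
  have h1 : gser R (x : ℂ) = ((∑' k : ℕ, (x / (4 * R k)) ^ k : ℝ) : ℂ) := by
    rw [gser, Complex.ofReal_tsum]
    refine tsum_congr fun k => ?_
    push_cast
    rfl
  rw [h1, Complex.norm_real, Real.norm_of_nonneg (tsum_nonneg hpos)]
  exact hs.le_tsum n fun k _ => hpos k

lemma gser_not_poly {R : ℕ → ℝ} (hR : StrictMono R) (hR2 : ∀ k, 2 ≤ R k)
    (hlim : ∀ x : ℝ, ∃ k, x ≤ 2 * R (k + 1)) :
    ¬ ∃ p : Polynomial ℂ, ∀ z, gser R z = p.eval z := by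
  rintro ⟨p, hp⟩
  set N := p.natDegree with hN
  set C := ∑ i ∈ Finset.range (N + 1), ‖p.coeff i‖ with hC
  have hC0 : 0 ≤ C := Finset.sum_nonneg fun i _ => norm_nonneg _
  have hRp : 0 < R (N + 1) := by linarith [hR2 (N + 1)]
  have hup : ∀ x : ℝ, 1 ≤ x → ‖gser R (x : ℂ)‖ ≤ C * x ^ N := by
    intro x hx
    have hx0 : 0 ≤ x := by linarith
    rw [hp, Polynomial.eval_eq_sum_range, hC, Finset.sum_mul]
    refine le_trans (norm_sum_le _ _) (Finset.sum_le_sum fun i hi => ?_)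
    rw [norm_mul, norm_pow, Complex.norm_real, Real.norm_of_nonneg hx0]
    refine mul_le_mul_of_nonneg_left (pow_le_pow_right₀ hx ?_) (norm_nonneg _)
    have := Finset.mem_range.1 hi
    omega
  have hkey : ∀ x : ℝ, 1 ≤ x → x ≤ C * (4 * R (N + 1)) ^ (N + 1) := by
    intro x hx
    have hx0 : 0 < x := by linarith
    have h1 := (gser_real hR hR2 hlim hx (N + 1)).trans (hup x hx)
    rw [div_pow, div_le_iff₀ (by positivity), pow_succ] at h1
    have h2 : x ^ N * x ≤ x ^ N * (C * (4 * R (N + 1)) ^ (N + 1)) := by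
      calc x ^ N * x ≤ C * x ^ N * (4 * R (N + 1)) ^ (N + 1) := h1
        _ = x ^ N * (C * (4 * R (N + 1)) ^ (N + 1)) := by ring
    exact le_of_mul_le_mul_left h2 (by positivity)
  have h3 : 0 ≤ C * (4 * R (N + 1)) ^ (N + 1) := by positivity
  have h4 := hkey (C * (4 * R (N + 1)) ^ (N + 1) + 1) (by linarith)
  linarith

/-- For each `φ` with `φ r / log r → ∞` there are transcendental entire functions of growth `o(φ)`. -/
theorem exists_slow {φ : ℝ → ℝ} (hφ : Tendsto (fun r => φ r / Real.log r) atTop atTop) :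
    ∃ g : ℂ → ℂ, Differentiable ℂ g ∧ SmallF φ g ∧
      ¬ ∃ p : Polynomial ℂ, ∀ z, g z = p.eval z := by
  have h0 : ∀ k : ℕ, ∃ b : ℝ, ∀ r, b ≤ r → (k : ℝ) ^ 2 ≤ φ r / Real.log r := fun k =>
    eventually_atTop.1 (hφ.eventually_ge_atTop ((k : ℝ) ^ 2))
  choose f hf using h0
  -- the radii
  let R : ℕ → ℝ := fun k => (∑ i ∈ Finset.range (k + 1), |f i|) + k + 2
  have hR : StrictMono R := by
    refine strictMono_nat_of_lt_succ fun k => ?_
    show (∑ i ∈ Finset.range (k + 1), |f i|) + (k : ℝ) + 2 <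
      (∑ i ∈ Finset.range (k + 1 + 1), |f i|) + ((k + 1 : ℕ) : ℝ) + 2
    rw [Finset.sum_range_succ _ (k + 1)]
    push_cast
    linarith [abs_nonneg (f (k + 1))]
  have hRk : ∀ k : ℕ, (k : ℝ) + 2 ≤ R k := by
    intro k
    show (k : ℝ) + 2 ≤ (∑ i ∈ Finset.range (k + 1), |f i|) + (k : ℝ) + 2
    have : 0 ≤ ∑ i ∈ Finset.range (k + 1), |f i| := Finset.sum_nonneg fun i _ => abs_nonneg _
    linarith
  have hR2 : ∀ k, 2 ≤ R k := fun k => by
    have := hRk k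
    have h1 : (0 : ℝ) ≤ k := Nat.cast_nonneg k
    linarith
  have hfR : ∀ k, f k ≤ R k := by
    intro k
    show f k ≤ (∑ i ∈ Finset.range (k + 1), |f i|) + (k : ℝ) + 2
    have h1 : |f k| ≤ ∑ i ∈ Finset.range (k + 1), |f i| :=
      Finset.single_le_sum (f := fun i => |f i|) (fun i _ => abs_nonneg _)
        (Finset.self_mem_range_succ k)
    have h2 : (0 : ℝ) ≤ k := Nat.cast_nonneg k
    linarith [le_abs_self (f k)]
  have hlim : ∀ x : ℝ, ∃ k, x ≤ 2 * R (k + 1) := by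
    intro x
    obtain ⟨k, hk⟩ := exists_nat_ge x
    refine ⟨k, ?_⟩
    have h1 := hRk (k + 1)
    have h2 : (0 : ℝ) ≤ k := Nat.cast_nonneg k
    push_cast at h1
    linarith
  refine ⟨gser R, gser_diff hR hR2 hlim, ?_, gser_not_poly hR hR2 hlim⟩
  intro c ε hε
  -- `J` with `2 j + 1 ≤ ε j ^ 2` for `j ≥ J`
  obtain ⟨J, hJ⟩ := exists_nat_ge (3 / ε + 1)
  filter_upwards [eventually_ge_atTop (max c (R J))] with r hr z hz
  have hrc : c ≤ r := le_trans (le_max_left _ _) hr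
  have hrJ : R J ≤ r := le_trans (le_max_right _ _) hr
  have hr2 : 2 ≤ r := le_trans (hR2 J) hrJ
  have hex : ∃ k, r < R k := by
    obtain ⟨k, hk⟩ := exists_nat_ge r
    exact ⟨k, by linarith [hRk k]⟩
  obtain ⟨j, hj1, hj2⟩ : ∃ j, R j ≤ r ∧ r < R (j + 1) := by
    classical
    have h1 := Nat.find_spec hex
    rcases Nat.exists_eq_succ_of_ne_zero (n := Nat.find hex) (by
      intro h
      rw [h] at h1
      have := hR.monotone (Nat.zero_le J)
      linarith) with ⟨j, hj⟩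
    refine ⟨j, ?_, ?_⟩
    · have h2 := Nat.find_min hex (m := j) (by omega)
      exact not_lt.1 h2
    · rw [hj] at h1
      exact h1
  have hJj : J ≤ j := by
    have : R J < R (j + 1) := lt_of_le_of_lt hrJ hj2
    have := hR.lt_iff_lt.1 this
    omega
  have hlog : 0 < Real.log r := Real.log_pos (by linarith)
  have hphi : (j : ℝ) ^ 2 * Real.log r ≤ φ r := by
    have := hf j r (le_trans (hfR j) hj1)
    rwa [le_div_iff₀ hlog] at this
  have hz2 : ‖z‖ ≤ 2 * r := by linarith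
  have hb := gser_norm_le hR hR2 (ρ := 2 * r) (by linarith) (j := j) (by linarith) hz2
  have hr0 : 0 < r := by linarith
  have hb2 : (2 * r) ^ j * 2 ≤ r ^ (2 * j + 1) := by
    have h1 : (2 * r) ^ j ≤ (r ^ 2) ^ j := pow_le_pow_left₀ (by linarith) (by nlinarith) j
    calc (2 * r) ^ j * 2 ≤ (r ^ 2) ^ j * r := mul_le_mul h1 hr2 (by norm_num) (by positivity)
      _ = r ^ (2 * j + 1) := by rw [← pow_mul, pow_succ]
  have hb3 : r ^ (2 * j + 1) = Real.exp (((2 * j + 1 : ℕ) : ℝ) * Real.log r) := by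
    rw [Real.exp_nat_mul, Real.exp_log hr0]
  have hj3 : 3 / ε + 1 ≤ (j : ℝ) := hJ.trans (by exact_mod_cast hJj)
  have hj4 : 3 ≤ ε * j := by
    have h1 : ε * (3 / ε) = 3 := by field_simp
    nlinarith
  have hj5 : (1 : ℝ) ≤ j := by
    have : 0 < 3 / ε := by positivity
    linarith
  have hj6 : ((2 * j + 1 : ℕ) : ℝ) ≤ ε * (j : ℝ) ^ 2 := by
    push_cast
    nlinarith
  calc ‖gser R z‖ ≤ (2 * r) ^ j * 2 := hb
    _ ≤ r ^ (2 * j + 1) := hb2
    _ = Real.exp (((2 * j + 1 : ℕ) : ℝ) * Real.log r) := hb3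
    _ ≤ Real.exp (ε * φ r) := by
      refine Real.exp_le_exp.2 ?_
      calc ((2 * j + 1 : ℕ) : ℝ) * Real.log r ≤ (ε * (j : ℝ) ^ 2) * Real.log r :=
            mul_le_mul_of_nonneg_right hj6 hlog.le
        _ = ε * ((j : ℝ) ^ 2 * Real.log r) := by ring
        _ ≤ ε * φ r := mul_le_mul_of_nonneg_left hphi hε.le

end Pool.Agent.H436.SC

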